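import Pool.Agent.H345.RInfMain

/-!
# Classification of the Artin groups with property `R_∞` (full answer to Q1 of MP_b326e6_al)

For every finite set `S` and every Coxeter matrix `M` on `S`, the Artin group `A_M` has property
`R_∞` if and only if some label `m_st` with `s ≠ t` is different from `2`, that is, if and only if
`A_M` is not the free abelian group on `S`. In particular every non-abelian right-angled Artin
group has property `R_∞` (conjecture of Dekimpe and Senden), and so has every irreducible Artin
group of rank at least two, spherical or not.

How the definitions (file `Pool/Agent/H345/RInfDefs.lean`) match the problem file:
* `CoxeterMatrix S` is Mathlib's structure: a symmetric matrix of natural numbers, `1` on the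
  diagonal and different from `1` off it; the value `0` encodes the label `∞`.
* `ArtinGroup M` is generated by `S` with one relator for each pair `s ≠ t` with `M s t ≠ 0`,
  namely `(s t s ⋯)(t s t ⋯)⁻¹` with both alternating words of length `M s t`.
* `twSetoid φ` is the relation `y = g x φ(g)⁻¹` and `HasRInf G` says that for every automorphism
  `φ` of `G` the set of its classes is infinite, i.e. `R(φ) = ∞`.

Proof. Let `s ≠ t` have label different from `2`, and let `J` be the connected component of `s` in
the graph joining two generators when their label is not `2`. For a prime `p ≡ 1` modulo
twice the product of the finite labels choose a nondegenerate alternating space over `F_p` spanned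
by vectors `v_s` with Gram matrix `± c_st` on `J` and zero elsewhere, where `c_st = ζ + ζ⁻¹` with
`ζ` of order `2 m_st`. The transvections along the `v_s` satisfy the Artin relations and generate
the group `G` generated by all transvections. Modulo its centre this group is simple, and no
automorphism of the simple quotient is fixed-point-free. A finitely generated group with such
simple quotients of unbounded order has property `R_∞` (`hasRInf_of_quotients`). Conversely a
finitely generated abelian group `A` has the automorphism `a ↦ a⁻¹` with `A / A²` as set of
twisted classes.
-/

namespace Pool.Agent.Results.MP_b326e6_al.Classification

open Pool.Agent.H345.RInf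

/-- **Theorem.** The Artin group `A_M` has property `R_∞` if and only if `m_st ≠ 2` for some
`s ≠ t`. -/
theorem result {S : Type*} [Finite S] (M : CoxeterMatrix S) :
    HasRInf (ArtinGroup M) ↔ ∃ s t : S, s ≠ t ∧ M s t ≠ 2 :=
  classification M

end Pool.Agent.Results.MP_b326e6_al.Classification
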